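import Mathlib

set_option autoImplicit false

namespace Pool.Agent.Q199.IsoIdeal

/-- `Y` is an isometric ideal in `X`: for every finite-dimensional subspace `E` of `X` there is a
linear isometry `T : E → Y` with `T e = e` for all `e ∈ E ∩ Y`. -/
def IsIsometricIdeal {X : Type*} [NormedAddCommGroup X] [NormedSpace ℝ X]
    (Y : Submodule ℝ X) : Prop :=
  ∀ E : Submodule ℝ X, FiniteDimensional ℝ E →
    ∃ T : E →ₗᵢ[ℝ] Y, ∀ e : E, (e : X) ∈ Y → ((T e : Y) : X) = (e : X)

section

variable (X Z : Type*) [NormedAddCommGroup X] [NormedSpace ℝ X] [NormedAddCommGroup Z]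
  [NormedSpace ℝ Z]

/-- The space of bounded operators `X* → Z` with the operator norm. -/
def Op : Type _ := (X →L[ℝ] ℝ) →L[ℝ] Z

noncomputable instance : NormedAddCommGroup (Op X Z) :=
  inferInstanceAs (NormedAddCommGroup ((X →L[ℝ] ℝ) →L[ℝ] Z))

noncomputable instance : NormedSpace ℝ (Op X Z) :=
  inferInstanceAs (NormedSpace ℝ ((X →L[ℝ] ℝ) →L[ℝ] Z))

variable {X Z}

/-- The elementary tensor `x ⊗ z` as the operator `X* → Z`, `φ ↦ φ(x) z`. -/
noncomputable def elem (x : X) (z : Z) : Op X Z :=
  (ContinuousLinearMap.apply ℝ ℝ x).smulRight z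

variable (X Z) in
/-- The injective tensor product of `X` and `Z`: the closed linear span of the elementary tensors
in the space of operators `X* → Z` with the operator norm. -/
noncomputable def injTensor : Submodule ℝ (Op X Z) :=
  (Submodule.span ℝ {u | ∃ x z, u = elem x z}).topologicalClosure

variable (Z) in
/-- The injective tensor product of `Y` and `Z` regarded as a subspace of that of `X` and `Z`: the
elements of the latter in the closed linear span of the tensors `y ⊗ z` with `y ∈ Y`. -/
noncomputable def injSub (Y : Submodule ℝ X) : Submodule ℝ (injTensor X Z) :=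
  ((Submodule.span ℝ {u | ∃ y ∈ Y, ∃ z : Z, u = elem y z}).topologicalClosure).comap
    (injTensor X Z).subtype

end

end Pool.Agent.Q199.IsoIdeal
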