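import Mathlib
import Pool.Agent.Q199.IsoIdeal.Defs

set_option autoImplicit false

namespace Pool.Agent.Q199.IsoIdeal

open scoped InnerProductSpace
open Filter Topology OnePoint

noncomputable instance {X Z : Type*} [NormedAddCommGroup X] [NormedSpace ℝ X]
    [NormedAddCommGroup Z] [NormedSpace ℝ Z] [CompleteSpace Z] : CompleteSpace (Op X Z) :=
  inferInstanceAs (CompleteSpace ((X →L[ℝ] ℝ) →L[ℝ] Z))

/-- the space of convergent sequences -/
abbrev CC : Type := C(OnePoint ℕ, ℝ)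

variable {H : Type*} [NormedAddCommGroup H] [InnerProductSpace ℝ H] [CompleteSpace H]

/-- The value at `k` of an operator `H* → c`, as a vector of `H`. -/
noncomputable def hv0 (k : OnePoint ℕ) (u : Op H CC) : H →L[ℝ] ℝ :=
  LinearMap.mkContinuous
    { toFun := fun v => (show (H →L[ℝ] ℝ) →L[ℝ] CC from u) (innerSL ℝ v) k
      map_add' := by intro a b; simp
      map_smul' := by intro c a; simp } ‖u‖ (by
      intro v
      refine (ContinuousMap.norm_coe_le_norm _ k).trans ?_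
      refine ((show (H →L[ℝ] ℝ) →L[ℝ] CC from u).le_opNorm _).trans ?_
      rw [innerSL_apply_norm]
      exact le_rfl)

omit [CompleteSpace H] in
lemma hv0_apply (k : OnePoint ℕ) (u : Op H CC) (v : H) :
    hv0 k u v = (show (H →L[ℝ] ℝ) →L[ℝ] CC from u) (innerSL ℝ v) k := rfl

omit [CompleteSpace H] in
lemma hv0_norm (k : OnePoint ℕ) (u : Op H CC) : ‖hv0 k u‖ ≤ ‖u‖ :=
  LinearMap.mkContinuous_norm_le _ (norm_nonneg _) _

/-- The value at `k` of an operator `H* → c`, as a vector of `H`, linear in the operator. -/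
noncomputable def hv (k : OnePoint ℕ) : Op H CC →L[ℝ] H :=
  LinearMap.mkContinuous
    { toFun := fun u => (InnerProductSpace.toDual ℝ H).symm (hv0 k u)
      map_add' := by
        intro a b
        rw [← map_add]; rfl
      map_smul' := by
        intro c a
        have : hv0 k (c • a) = c • hv0 k a := rfl
        rw [this, map_smulₛₗ]; rfl } 1 (by
      intro u
      rw [one_mul]
      show ‖(InnerProductSpace.toDual ℝ H).symm (hv0 k u)‖ ≤ ‖u‖
      rw [LinearIsometryEquiv.norm_map]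
      exact hv0_norm k u)

lemma inner_hv (k : OnePoint ℕ) (u : Op H CC) (v : H) :
    ⟪hv k u, v⟫_ℝ = (show (H →L[ℝ] ℝ) →L[ℝ] CC from u) (innerSL ℝ v) k :=
  InnerProductSpace.toDual_symm_apply

lemma norm_hv (k : OnePoint ℕ) (u : Op H CC) : ‖hv k u‖ ≤ ‖u‖ := by
  show ‖(InnerProductSpace.toDual ℝ H).symm (hv0 k u)‖ ≤ ‖u‖
  rw [LinearIsometryEquiv.norm_map]
  exact hv0_norm k u

lemma norm_le_of_hv (u : Op H CC) {C : ℝ} (hC : 0 ≤ C) (h : ∀ k, ‖hv k u‖ ≤ C) : ‖u‖ ≤ C := by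
  refine ContinuousLinearMap.opNorm_le_bound (show (H →L[ℝ] ℝ) →L[ℝ] CC from u) hC fun φ => ?_
  obtain ⟨v, rfl⟩ : ∃ v, innerSL ℝ v = φ :=
    ⟨(InnerProductSpace.toDual ℝ H).symm φ, by ext w; simp⟩
  refine (ContinuousMap.norm_le _ (by positivity)).2 fun k => ?_
  rw [← inner_hv, innerSL_apply_norm]
  exact (norm_inner_le_norm _ _).trans (mul_le_mul_of_nonneg_right (h k) (norm_nonneg _))

lemma hv_elem (k : OnePoint ℕ) (x : H) (z : CC) : hv k (elem x z) = z k • x := by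
  refine ext_inner_right ℝ fun v => ?_
  rw [inner_hv, inner_smul_left]
  show ((innerSL ℝ v) x • z) k = _
  rw [ContinuousMap.smul_apply, innerSL_apply_apply, real_inner_comm]
  simp [mul_comm]

lemma tendsto_hv (u : Op H CC)
    (hu : u ∈ (Submodule.span ℝ {u : Op H CC | ∃ x z, u = elem x z}).topologicalClosure) :
    Tendsto (fun n : ℕ => hv (n : OnePoint ℕ) u) atTop (𝓝 (hv ∞ u)) := by
  have hspan : ∀ s ∈ Submodule.span ℝ {u : Op H CC | ∃ x z, u = elem x z},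
      Tendsto (fun n : ℕ => hv (n : OnePoint ℕ) s) atTop (𝓝 (hv ∞ s)) := by
    intro s hs
    induction hs using Submodule.span_induction with
    | mem s hs =>
      obtain ⟨x, z, rfl⟩ := hs
      simp only [hv_elem]
      exact ((OnePoint.continuous_iff_from_nat _).1 z.continuous).smul_const x
    | zero => simp
    | add a b _ _ ha hb => simp only [map_add]; exact ha.add hb
    | smul c a _ ha => simp only [_root_.map_smul]; exact ha.const_smul c
  rw [Metric.tendsto_atTop]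
  intro ε hε
  have hu' : u ∈ closure (Submodule.span ℝ {u : Op H CC | ∃ x z, u = elem x z} : Set (Op H CC)) := hu
  obtain ⟨s, hs, hus⟩ := Metric.mem_closure_iff.1 hu' (ε / 3) (by positivity)
  obtain ⟨N, hN⟩ := Metric.tendsto_atTop.1 (hspan s hs) (ε / 3) (by positivity)
  refine ⟨N, fun n hn => ?_⟩
  have h1 : ∀ k, dist (hv k u) (hv k s) ≤ dist u s := by
    intro k
    rw [dist_eq_norm, dist_eq_norm, ← map_sub]
    exact norm_hv _ _
  have h2 := hN n hn
  calc dist (hv (n : OnePoint ℕ) u) (hv ∞ u)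
      ≤ dist (hv (n : OnePoint ℕ) u) (hv (n : OnePoint ℕ) s) +
        dist (hv (n : OnePoint ℕ) s) (hv ∞ s) + dist (hv ∞ s) (hv ∞ u) := dist_triangle4 _ _ _ _
    _ < ε / 3 + ε / 3 + ε / 3 := by
        have := h1 (n : OnePoint ℕ)
        have h3 := h1 ∞
        rw [dist_comm (hv ∞ s) (hv ∞ u)]
        linarith
    _ = ε := by ring

/-- the function `1/(n+1)` of `c` -/
noncomputable def pp : CC :=
  OnePoint.continuousMapMkNat (fun n : ℕ => 1 / ((n : ℝ) + 1)) 0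
    tendsto_one_div_add_atTop_nhds_zero_nat

lemma pp_nat (n : ℕ) : pp (n : OnePoint ℕ) = 1 / ((n : ℝ) + 1) := rfl

lemma pp_infty : pp ∞ = 0 := rfl

/-- the polynomial `a + b p + c p²` of `c` -/
noncomputable def qq (a b c : ℝ) : CC := a • 1 + b • pp + c • (pp * pp)

lemma qq_apply (a b c : ℝ) (k : OnePoint ℕ) : qq a b c k = a + b * pp k + c * (pp k * pp k) := by
  simp [qq]

omit [CompleteSpace H] in
lemma sq_norm_add {x w : H} (hx : ‖x‖ = 1) (hw : ⟪x, w⟫_ℝ = 0) : ‖x + w‖ ^ 2 = 1 + ‖w‖ ^ 2 := by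
  rw [norm_add_sq_real, hw, hx]; ring

lemma pp_sub {n m : ℕ} (h : n ≠ m) :
    (1 / (((n : ℝ) + 1) * ((n : ℝ) + 2))) ^ 2 ≤
      (pp (m : OnePoint ℕ) - pp (n : OnePoint ℕ)) ^ 2 := by
  rw [pp_nat, pp_nat]
  have hn : (0 : ℝ) ≤ n := Nat.cast_nonneg n
  have hm : (0 : ℝ) ≤ m := Nat.cast_nonneg m
  rcases lt_or_gt_of_ne h with h | h
  · -- n < m
    have h1 : (n : ℝ) + 1 ≤ m := by exact_mod_cast h
    have h2 : 1 / (((n : ℝ) + 1) * ((n : ℝ) + 2)) ≤ 1 / ((n : ℝ) + 1) - 1 / ((m : ℝ) + 1) := by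
      have h3 : 1 / ((m : ℝ) + 1) ≤ 1 / ((n : ℝ) + 2) :=
        one_div_le_one_div_of_le (by positivity) (by linarith)
      have h4 : 1 / (((n : ℝ) + 1) * ((n : ℝ) + 2)) = 1 / ((n : ℝ) + 1) - 1 / ((n : ℝ) + 2) := by
        field_simp; ring
      linarith
    rw [show (1 / ((m : ℝ) + 1) - 1 / ((n : ℝ) + 1)) ^ 2 =
      (1 / ((n : ℝ) + 1) - 1 / ((m : ℝ) + 1)) ^ 2 by ring]
    exact pow_le_pow_left₀ (by positivity) h2 2
  · have h1 : (m : ℝ) + 1 ≤ n := by exact_mod_cast h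
    have h2 : 1 / (((n : ℝ) + 1) * ((n : ℝ) + 2)) ≤ 1 / ((m : ℝ) + 1) - 1 / ((n : ℝ) + 1) := by
      have h3 : 1 / (n : ℝ) ≤ 1 / ((m : ℝ) + 1) :=
        one_div_le_one_div_of_le (by positivity) h1
      have hn1 : (1 : ℝ) ≤ n := by linarith
      have h4 : 1 / (((n : ℝ) + 1) * ((n : ℝ) + 2)) ≤ 1 / (n : ℝ) - 1 / ((n : ℝ) + 1) := by
        have : 1 / (n : ℝ) - 1 / ((n : ℝ) + 1) = 1 / ((n : ℝ) * ((n : ℝ) + 1)) := by
          field_simp; ring
        rw [this]
        exact one_div_le_one_div_of_le (by positivity) (by nlinarith)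
      linarith
    exact pow_le_pow_left₀ (by positivity) h2 2

lemma pp_infty_sub (n : ℕ) :
    (1 / (((n : ℝ) + 1) * ((n : ℝ) + 2))) ^ 2 ≤ (pp ∞ - pp (n : OnePoint ℕ)) ^ 2 := by
  rw [pp_nat, pp_infty, show (0 - 1 / ((n : ℝ) + 1)) ^ 2 = (1 / ((n : ℝ) + 1)) ^ 2 by ring]
  refine pow_le_pow_left₀ (by positivity) ?_ 2
  exact one_div_le_one_div_of_le (by positivity) (by
    have hn : (0 : ℝ) ≤ n := Nat.cast_nonneg n
    nlinarith)

lemma pp_mem (k : OnePoint ℕ) : 0 ≤ pp k ∧ pp k ≤ 1 := by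
  induction k using OnePoint.rec with
  | infty => rw [pp_infty]; simp
  | coe n =>
    have hn : (0 : ℝ) ≤ n := Nat.cast_nonneg n
    rw [pp_nat]
    exact ⟨by positivity, (div_le_one (by positivity)).2 (by linarith)⟩

/-- The core of the counterexample. -/
theorem core (b : HilbertBasis ℕ ℝ H) (β : ℕ → ℕ) (hβ : ∀ n, β n ≠ 0)
    (hβf : ∀ m, m ≠ 0 → ∃ᶠ n in atTop, β n = m) (h g : Op H CC)
    (hh0 : ∀ k, ⟪hv k h, b 0⟫_ℝ = 0)
    (hcont : Tendsto (fun n : ℕ => hv (n : OnePoint ℕ) h) atTop (𝓝 (hv ∞ h)))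
    (ε : ℕ → ℝ) (hε0 : ∀ n, 0 < ε n) (hε1 : ∀ n, ε n ≤ 1)
    (hg : ∀ n : ℕ, hv (n : OnePoint ℕ) g = ε n • b (β n)) (hg' : hv ∞ g = 0)
    (iso : ∀ r s t d : ℝ, ‖h + elem (b 1) (qq r s t) + d • g‖ =
      ‖elem (b 0) (1 : CC) + elem (b 1) (qq r s t) + d • g‖) : False := by
  have hb := b.orthonormal
  have hb1 : ∀ n, ‖b n‖ = 1 := fun n => hb.1 n
  have hb0 : ∀ n m, n ≠ m → ⟪b n, b m⟫_ℝ = 0 := fun n m hnm => hb.2 hnm
  have hgk : ∀ k, ‖hv k g‖ ≤ 1 := by
    intro k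
    induction k using OnePoint.rec with
    | infty => rw [hg']; simp
    | coe n =>
      rw [hg, norm_smul, hb1, mul_one, Real.norm_of_nonneg (hε0 n).le]
      exact hε1 n
  have hgk0 : ∀ k, ⟪b 0, hv k g⟫_ℝ = 0 := by
    intro k
    induction k using OnePoint.rec with
    | infty => rw [hg']; simp
    | coe n =>
      rw [hg, inner_smul_right, hb0 0 (β n) (hβ n).symm, mul_zero]
  have hval : ∀ (u : Op H CC) (r s t d : ℝ) (k : OnePoint ℕ),
      hv k (u + elem (b 1) (qq r s t) + d • g) = hv k u + (qq r s t k • b 1 + d • hv k g) := by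
    intro u r s t d k
    rw [map_add, map_add, _root_.map_smul, hv_elem, add_assoc]
  have hone : ∀ k : OnePoint ℕ, hv k (elem (b 0) (1 : CC)) = b 0 := by
    intro k; rw [hv_elem]; simp
  have hperp : ∀ (x d : ℝ) (k : OnePoint ℕ), ⟪b 0, x • b 1 + d • hv k g⟫_ℝ = 0 := by
    intro x d k
    rw [inner_add_right, inner_smul_right, inner_smul_right, hb0 0 1 (by norm_num), hgk0]
    ring
  -- the peaking inequality
  have peak : ∀ (n : ℕ) (d σ : ℝ), |σ| = 1 → ∃ M₀ : ℝ, ∀ M : ℝ, M₀ ≤ M →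
      ‖hv (n : OnePoint ℕ) h‖ ^ 2 + 2 * (σ * M) * ⟪hv (n : OnePoint ℕ) h, b 1⟫_ℝ +
        2 * (d * ε n) * ⟪hv (n : OnePoint ℕ) h, b (β n)⟫_ℝ ≤ 1 := by
    intro n d σ hσ
    obtain ⟨δ, hδ⟩ : ∃ δ : ℝ, δ = (1 / (((n : ℝ) + 1) * ((n : ℝ) + 2))) ^ 2 := ⟨_, rfl⟩
    have hδ0 : 0 < δ := by rw [hδ]; positivity
    refine ⟨max 0 (2 * |d| / δ), fun M hM => ?_⟩
    have hM0 : 0 ≤ M := (le_max_left _ _).trans hM
    have hMd : 2 * |d| ≤ M * δ := by
      have := (le_max_right _ _).trans hM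
      rwa [div_le_iff₀ hδ0] at this
    obtain ⟨P, hP⟩ : ∃ P : ℝ, P = pp (n : OnePoint ℕ) := ⟨_, rfl⟩
    let r := σ * (M * (1 - P ^ 2))
    let s := σ * (2 * M * P)
    let t := σ * (-M)
    have hq : ∀ k, qq r s t k = σ * (M * (1 - (pp k - P) ^ 2)) := by
      intro k
      rw [qq_apply]
      simp only [r, s, t]
      ring
    have hqn : qq r s t (n : OnePoint ℕ) = σ * M := by
      rw [hq, ← hP]; ring
    obtain ⟨w, hw⟩ : ∃ w : H, w = (σ * M) • b 1 + d • hv (n : OnePoint ℕ) g := ⟨_, rfl⟩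
    have hwlow : M - |d| ≤ ‖w‖ := by
      have h1 : ‖(σ * M) • b 1‖ = M := by
        rw [norm_smul, hb1, norm_mul, Real.norm_eq_abs, Real.norm_eq_abs, hσ, abs_of_nonneg hM0]
        ring
      have h2 : ‖d • hv (n : OnePoint ℕ) g‖ ≤ |d| := by
        rw [norm_smul, Real.norm_eq_abs]
        exact mul_le_of_le_one_right (abs_nonneg d) (hgk _)
      have h3 : ‖(σ * M) • b 1‖ ≤ ‖w‖ + ‖d • hv (n : OnePoint ℕ) g‖ := by
        have : (σ * M) • b 1 = w - d • hv (n : OnePoint ℕ) g := by rw [hw]; abel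
        calc ‖(σ * M) • b 1‖ = ‖w - d • hv (n : OnePoint ℕ) g‖ := by rw [this]
          _ ≤ _ := norm_sub_le _ _
      linarith
    have hother : ∀ k, k ≠ (n : OnePoint ℕ) → ‖qq r s t k • b 1 + d • hv k g‖ ≤ ‖w‖ := by
      intro k hk
      have hδk : δ ≤ (pp k - P) ^ 2 := by
        rw [hδ, hP]
        induction k using OnePoint.rec with
        | infty => exact pp_infty_sub n
        | coe m => exact pp_sub (fun e => hk (by rw [e]))
      have hle1 : (pp k - P) ^ 2 ≤ 1 := by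
        have h1 := pp_mem k
        have h2 := pp_mem (n : OnePoint ℕ)
        rw [← hP] at h2
        rw [sq_le_one_iff_abs_le_one, abs_le]
        constructor <;> linarith
      have h1 : ‖qq r s t k • b 1‖ ≤ M * (1 - δ) := by
        rw [norm_smul, hb1, mul_one, hq, Real.norm_eq_abs, abs_mul, hσ, one_mul,
          abs_of_nonneg (mul_nonneg hM0 (by linarith))]
        exact mul_le_mul_of_nonneg_left (by linarith) hM0
      have h2 : ‖d • hv k g‖ ≤ |d| := by
        rw [norm_smul, Real.norm_eq_abs]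
        exact mul_le_of_le_one_right (abs_nonneg d) (hgk _)
      calc ‖qq r s t k • b 1 + d • hv k g‖ ≤ M * (1 - δ) + |d| :=
            (norm_add_le _ _).trans (add_le_add h1 h2)
        _ ≤ M - |d| := by linarith
        _ ≤ ‖w‖ := hwlow
    have hupper : ‖elem (b 0) (1 : CC) + elem (b 1) (qq r s t) + d • g‖ ≤ Real.sqrt (1 + ‖w‖ ^ 2) := by
      refine norm_le_of_hv _ (Real.sqrt_nonneg _) fun k => ?_
      rw [hval, hone]
      refine Real.le_sqrt_of_sq_le ?_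
      rw [sq_norm_add (hb1 0) (hperp _ _ _)]
      have h1 : ‖qq r s t k • b 1 + d • hv k g‖ ≤ ‖w‖ := by
        by_cases hk : k = (n : OnePoint ℕ)
        · rw [hk, hqn, ← hw]
        · exact hother k hk
      have := pow_le_pow_left₀ (norm_nonneg _) h1 2
      linarith
    have hlow : ‖hv (n : OnePoint ℕ) h + w‖ ^ 2 ≤ 1 + ‖w‖ ^ 2 := by
      have h1 : ‖hv (n : OnePoint ℕ) (h + elem (b 1) (qq r s t) + d • g)‖ ≤
          Real.sqrt (1 + ‖w‖ ^ 2) := ((norm_hv _ _).trans (iso r s t d).le).trans hupper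
      rw [hval, hqn, ← hw] at h1
      have h2 := pow_le_pow_left₀ (norm_nonneg _) h1 2
      rwa [Real.sq_sqrt (by positivity)] at h2
    rw [norm_add_sq_real, hw, inner_add_right, inner_smul_right, inner_smul_right, hg,
      inner_smul_right] at hlow
    linarith
  -- consequences
  have hzero1 : ∀ n : ℕ, ⟪hv (n : OnePoint ℕ) h, b 1⟫_ℝ = 0 := by
    intro n
    have key : ∀ σ : ℝ, |σ| = 1 → σ * ⟪hv (n : OnePoint ℕ) h, b 1⟫_ℝ ≤ 0 := by
      intro σ hσ
      by_contra hcon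
      push Not at hcon
      obtain ⟨M₀, hM₀⟩ := peak n 0 σ hσ
      obtain ⟨x, hx⟩ : ∃ x, x = σ * ⟪hv (n : OnePoint ℕ) h, b 1⟫_ℝ := ⟨_, rfl⟩
      rw [← hx] at hcon
      have h1 := hM₀ (max M₀ (1 / x)) (le_max_left _ _)
      have h2 : 1 / x ≤ max M₀ (1 / x) := le_max_right _ _
      have h3 : 1 ≤ max M₀ (1 / x) * x := by
        have := mul_le_mul_of_nonneg_right h2 hcon.le
        rwa [one_div_mul_cancel hcon.ne'] at this
      have h4 : 2 * (σ * max M₀ (1 / x)) * ⟪hv (n : OnePoint ℕ) h, b 1⟫_ℝ =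
          2 * (max M₀ (1 / x) * x) := by rw [hx]; ring
      rw [h4] at h1
      have h5 : (0 : ℝ) ≤ ‖hv (n : OnePoint ℕ) h‖ ^ 2 := by positivity
      simp only [zero_mul, mul_zero] at h1
      linarith
    have k1 := key 1 (by simp)
    have k2 := key (-1) (by simp)
    linarith
  have hineq : ∀ (n : ℕ) (d : ℝ), ‖hv (n : OnePoint ℕ) h‖ ^ 2 +
      2 * (d * ε n) * ⟪hv (n : OnePoint ℕ) h, b (β n)⟫_ℝ ≤ 1 := by
    intro n d
    obtain ⟨M₀, hM₀⟩ := peak n d 1 (by simp)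
    have := hM₀ M₀ le_rfl
    rw [hzero1, mul_zero, add_zero] at this
    exact this
  have hle1 : ∀ n : ℕ, ‖hv (n : OnePoint ℕ) h‖ ^ 2 ≤ 1 := by
    intro n
    have := hineq n 0
    simpa using this
  have hzero2 : ∀ n : ℕ, ⟪hv (n : OnePoint ℕ) h, b (β n)⟫_ℝ = 0 := by
    intro n
    by_contra hne
    obtain ⟨x, hx⟩ : ∃ x, x = ⟪hv (n : OnePoint ℕ) h, b (β n)⟫_ℝ := ⟨_, rfl⟩
    rw [← hx] at hne
    have h1 := hineq n (1 / (ε n * x))
    rw [← hx] at h1
    have h2 : 2 * (1 / (ε n * x) * ε n) * x = 2 := by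
      have := (hε0 n).ne'
      field_simp
    rw [h2] at h1
    have h5 : (0 : ℝ) ≤ ‖hv (n : OnePoint ℕ) h‖ ^ 2 := by positivity
    linarith
  -- the limit vanishes
  have hlim0 : hv ∞ h = 0 := by
    have hinn : ∀ m, ⟪b m, hv ∞ h⟫_ℝ = 0 := by
      intro m
      rw [real_inner_comm]
      by_cases hm : m = 0
      · rw [hm]; exact hh0 ∞
      · have ht : Tendsto (fun n : ℕ => ⟪hv (n : OnePoint ℕ) h, b m⟫_ℝ) atTop
            (𝓝 ⟪hv ∞ h, b m⟫_ℝ) := hcont.inner tendsto_const_nhds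
        by_contra hne
        have hev : ∀ᶠ n : ℕ in atTop, ⟪hv (n : OnePoint ℕ) h, b m⟫_ℝ ≠ 0 :=
          ht.eventually_ne hne
        obtain ⟨n, hn1, hn2⟩ := ((hβf m hm).and_eventually hev).exists
        exact hn2 (by rw [← hn1]; exact hzero2 n)
    have hr : b.repr (hv ∞ h) = 0 := by
      ext m
      rw [b.repr_apply_apply, hinn m]; rfl
    simpa using hr
  rw [hlim0] at hcont
  obtain ⟨N, hN⟩ := Metric.tendsto_atTop.1 hcont (1 / 2) (by norm_num)
  have hN' : ∀ n, N ≤ n → ‖hv (n : OnePoint ℕ) h‖ ^ 2 ≤ 1 / 4 := by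
    intro n hn
    have h1 := (hN n hn).le
    rw [dist_zero_right] at h1
    have := pow_le_pow_left₀ (norm_nonneg _) h1 2
    linarith
  -- final contradiction with the peak at infinity
  obtain ⟨M, hM⟩ : ∃ M : ℝ, M = N + 1 := ⟨_, rfl⟩
  have hMpos : 0 < M := by rw [hM]; positivity
  have hq : ∀ k, qq M 0 (-M) k = M * (1 - pp k ^ 2) := by
    intro k; rw [qq_apply]; ring
  have hup : ‖h + elem (b 1) (qq M 0 (-M)) + (0 : ℝ) • g‖ ≤ Real.sqrt (M ^ 2 + 1 / 4) := by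
    refine norm_le_of_hv _ (Real.sqrt_nonneg _) fun k => ?_
    rw [hval, zero_smul, add_zero]
    refine Real.le_sqrt_of_sq_le ?_
    induction k using OnePoint.rec with
    | infty =>
      rw [hlim0, zero_add, hq, pp_infty, norm_smul, hb1, Real.norm_eq_abs, mul_one, sq_abs]
      norm_num
    | coe n =>
      rw [norm_add_sq_real, inner_smul_right, hzero1, mul_zero, mul_zero, add_zero, hq, norm_smul,
        hb1, mul_one, Real.norm_eq_abs, sq_abs]
      have hp := pp_mem (n : OnePoint ℕ)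
      have hp2 : pp (n : OnePoint ℕ) ^ 2 ≤ 1 := by nlinarith
      have hp3 : 0 ≤ pp (n : OnePoint ℕ) ^ 2 := sq_nonneg _
      have h1 : (M * (1 - pp (n : OnePoint ℕ) ^ 2)) ^ 2 ≤ M ^ 2 * (1 - pp (n : OnePoint ℕ) ^ 2) := by
        rw [mul_pow]
        refine mul_le_mul_of_nonneg_left ?_ (sq_nonneg M)
        nlinarith
      by_cases hn : N ≤ n
      · have h2 := hN' n hn
        have h3 : M ^ 2 * (1 - pp (n : OnePoint ℕ) ^ 2) ≤ M ^ 2 := by nlinarith [sq_nonneg M]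
        linarith
      · have hnN : (n : ℝ) + 1 ≤ N := by exact_mod_cast (not_le.1 hn)
        have h2 := hle1 n
        have h3 : 1 ≤ M * pp (n : OnePoint ℕ) := by
          rw [pp_nat, mul_one_div, le_div_iff₀ (by positivity), hM]
          linarith
        have h4 : 1 ≤ M ^ 2 * pp (n : OnePoint ℕ) ^ 2 := by
          rw [← mul_pow]; exact one_le_pow₀ h3
        nlinarith
  have hlow : Real.sqrt (1 + M ^ 2) ≤
      ‖elem (b 0) (1 : CC) + elem (b 1) (qq M 0 (-M)) + (0 : ℝ) • g‖ := by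
    refine le_trans (le_of_eq ?_) (norm_hv ∞ _)
    rw [hval, hone, hq, pp_infty]
    have h1 := sq_norm_add (hb1 0) (hperp (M * (1 - 0 ^ 2)) 0 ∞)
    rw [← Real.sqrt_sq (norm_nonneg _), h1, zero_smul, add_zero, norm_smul, hb1, Real.norm_eq_abs,
      mul_one, sq_abs]
    norm_num
  rw [iso] at hup
  have hfin := Real.sqrt_lt_sqrt (by positivity) (show M ^ 2 + 1 / 4 < 1 + M ^ 2 by linarith)
  linarith

end Pool.Agent.Q199.IsoIdeal
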