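import Mathlib
import Pool.Agent.Q199.IsoIdeal.Defs

set_option autoImplicit false

namespace Pool.Agent.Q199.IsoIdeal

open scoped InnerProductSpace

variable {H : Type*} [NormedAddCommGroup H] [InnerProductSpace ℝ H]

private lemma norm_add_smul {p u : H} (hu : ‖u‖ = 1) (hpu : ⟪p, u⟫_ℝ = 0) (t : ℝ) :
    ‖p + t • u‖ ^ 2 = ‖p‖ ^ 2 + t ^ 2 := by
  rw [norm_add_sq_real, inner_smul_right, hpu, norm_smul, hu, Real.norm_eq_abs, mul_one, sq_abs]
  ring

/-- A closed hyperplane of an infinite-dimensional Hilbert space is an isometric ideal. -/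
theorem hyperplane_isIsometricIdeal (hH : ¬ FiniteDimensional ℝ H) (e0 : H) :
    IsIsometricIdeal ((ℝ ∙ e0)ᗮ : Submodule ℝ H) := by
  intro E hE
  by_cases hEY : E ≤ (ℝ ∙ e0)ᗮ
  · exact ⟨⟨Submodule.inclusion hEY, fun _ => rfl⟩, fun e _ => rfl⟩
  · rw [SetLike.not_le_iff_exists] at hEY
    obtain ⟨x1, hx1E, hx1Y⟩ := hEY
    let F : Submodule ℝ H := E ⊓ (ℝ ∙ e0)ᗮ
    have hFfd : FiniteDimensional ℝ F := Submodule.finiteDimensional_inf_left _ _
    have hmemY : ∀ x : H, x ∈ (ℝ ∙ e0)ᗮ ↔ ⟪e0, x⟫_ℝ = 0 := fun x =>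
      Submodule.mem_orthogonal_singleton_iff_inner_right
    have hFE : ∀ x ∈ F, x ∈ E := fun x hx => hx.1
    have hFY : ∀ x ∈ F, ⟪e0, x⟫_ℝ = 0 := fun x hx => (hmemY x).1 hx.2
    -- the unit vector `u`
    let x2 : H := x1 - F.starProjection x1
    have hx2F : x2 ∈ Fᗮ := Submodule.sub_starProjection_mem_orthogonal x1
    have hx2E : x2 ∈ E := E.sub_mem hx1E (hFE _ (Submodule.starProjection_apply_mem F x1))
    have hx20 : ⟪e0, x2⟫_ℝ ≠ 0 := by
      rw [inner_sub_right, hFY _ (Submodule.starProjection_apply_mem F x1), sub_zero]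
      exact fun h => hx1Y ((hmemY x1).2 h)
    have hx2n : ‖x2‖ ≠ 0 := by
      intro h
      rw [norm_eq_zero] at h
      exact hx20 (by rw [h, inner_zero_right])
    let u : H := (‖x2‖)⁻¹ • x2
    have hu1 : ‖u‖ = 1 := by
      rw [norm_smul, norm_inv, norm_norm, inv_mul_cancel₀ hx2n]
    have huF : u ∈ Fᗮ := Submodule.smul_mem _ _ hx2F
    have huE : u ∈ E := Submodule.smul_mem _ _ hx2E
    have hu0 : ⟪e0, u⟫_ℝ ≠ 0 := by
      rw [inner_smul_right]
      exact mul_ne_zero (inv_ne_zero hx2n) hx20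
    -- the unit vector `y`
    obtain ⟨y0, hy0, hy00⟩ : ∃ y ∈ ((ℝ ∙ e0) ⊔ F)ᗮ, y ≠ 0 := by
      have h1 : ((ℝ ∙ e0) ⊔ F)ᗮ ≠ ⊥ := by
        intro h
        rw [Submodule.orthogonal_eq_bot_iff] at h
        apply hH
        have : FiniteDimensional ℝ ((ℝ ∙ e0) ⊔ F : Submodule ℝ H) := inferInstance
        rw [h] at this
        exact Module.Finite.equiv (Submodule.topEquiv : (⊤ : Submodule ℝ H) ≃ₗ[ℝ] H)
      exact Submodule.exists_mem_ne_zero_of_ne_bot h1
    let y : H := (‖y0‖)⁻¹ • y0
    have hy0n : ‖y0‖ ≠ 0 := by simpa using hy00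
    have hy1 : ‖y‖ = 1 := by
      rw [norm_smul, norm_inv, norm_norm, inv_mul_cancel₀ hy0n]
    have hymem : y ∈ ((ℝ ∙ e0) ⊔ F)ᗮ := Submodule.smul_mem _ _ hy0
    rw [← Submodule.inf_orthogonal] at hymem
    have hyY : y ∈ (ℝ ∙ e0)ᗮ := hymem.1
    have hyF : y ∈ Fᗮ := hymem.2
    -- decomposition of the elements of `E`
    let t : H → ℝ := fun e => ⟪e0, e⟫_ℝ / ⟪e0, u⟫_ℝ
    have hdec : ∀ e ∈ E, e = F.starProjection e + t e • u := by
      intro e he
      have hw : e - F.starProjection e - t e • u ∈ F := by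
        refine ⟨E.sub_mem (E.sub_mem he (hFE _ (Submodule.starProjection_apply_mem F e)))
          (E.smul_mem _ huE), (hmemY _).2 ?_⟩
        rw [inner_sub_right, inner_sub_right, hFY _ (Submodule.starProjection_apply_mem F e),
          inner_smul_right]
        simp only [t]
        field_simp
        ring
      have hw' : e - F.starProjection e - t e • u ∈ Fᗮ :=
        Submodule.sub_mem _ (Submodule.sub_starProjection_mem_orthogonal e)
          (Submodule.smul_mem _ _ huF)
      have h0 : e - F.starProjection e - t e • u = 0 := by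
        have := (Submodule.mem_orthogonal _ _).1 hw' _ hw
        exact inner_self_eq_zero.1 this
      have h1 := sub_eq_zero.1 h0
      rw [← h1]; abel
    have hPu : ∀ e, ⟪F.starProjection e, u⟫_ℝ = 0 := fun e =>
      (Submodule.mem_orthogonal _ _).1 huF _ (Submodule.starProjection_apply_mem F e)
    have hPy : ∀ e, ⟪F.starProjection e, y⟫_ℝ = 0 := fun e =>
      (Submodule.mem_orthogonal _ _).1 hyF _ (Submodule.starProjection_apply_mem F e)
    let T0 : E →ₗ[ℝ] ((ℝ ∙ e0)ᗮ : Submodule ℝ H) :=
      { toFun := fun e => ⟨F.starProjection e + t e • y, Submodule.add_mem _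
          ((Submodule.starProjection_apply_mem F (e : H)).2) (Submodule.smul_mem _ _ hyY)⟩
        map_add' := by
          intro a b
          ext1
          show F.starProjection ((a : H) + b) + t ((a : H) + b) • y =
            (F.starProjection a + t a • y) + (F.starProjection b + t b • y)
          have : t ((a : H) + b) = t a + t b := by
            simp only [t]; rw [inner_add_right, add_div]
          rw [this, map_add, add_smul]; abel
        map_smul' := by
          intro c a
          ext1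
          show F.starProjection (c • (a : H)) + t (c • (a : H)) • y =
            c • (F.starProjection a + t a • y)
          have : t (c • (a : H)) = c * t a := by
            simp only [t]; rw [inner_smul_right, mul_div_assoc]
          rw [this, map_smul, smul_add, mul_smul] }
    refine ⟨⟨T0, ?_⟩, ?_⟩
    · intro e
      have h1 : ‖T0 e‖ ^ 2 = ‖e‖ ^ 2 := by
        have h2 : ‖T0 e‖ = ‖F.starProjection (e : H) + t e • y‖ := rfl
        have h3 : ‖e‖ = ‖F.starProjection (e : H) + t e • u‖ := by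
          rw [← hdec e e.2]; rfl
        rw [h2, h3, norm_add_smul hy1 (hPy e), norm_add_smul hu1 (hPu e)]
      have h4 := abs_eq_abs.2 (sq_eq_sq_iff_eq_or_eq_neg.1 h1)
      rwa [abs_norm, abs_norm] at h4
    · intro e he
      show F.starProjection (e : H) + t e • y = e
      have ht : t e = 0 := by
        simp only [t]; rw [(hmemY e).1 he, zero_div]
      have := hdec e e.2
      rw [ht, zero_smul] at this ⊢
      exact this.symm

end Pool.Agent.Q199.IsoIdeal
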